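import Pool.Agent.H2.Kn.Rep2

/-!
# Correlations of square integrable functions along a linear flow
-/

open MeasureTheory
open scoped RealInnerProductSpace

set_option linter.unusedSectionVars false

namespace Pool.Agent.H2.Kn

open Pool.Agent.H16.Kn

variable {X : Type} [NormedAddCommGroup X] [NormedSpace ℝ X] [MeasureSpace X] [BorelSpace X]
  [SecondCountableTopology X] [FiniteDimensional ℝ X]
  [(volume : Measure X).IsAddHaarMeasure]

theorem mp_add (v : X) : MeasurePreserving (fun x : X => x + v) volume volume :=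
  measurePreserving_add_right volume v

/-- Translation. -/
noncomputable def trans (v : X) : Lp ℝ 2 (volume : Measure X) →L[ℝ] Lp ℝ 2 (volume : Measure X) :=
  (Lp.compMeasurePreservingₗᵢ ℝ (fun x : X => x + v) (mp_add v)).toContinuousLinearMap

theorem trans_apply (v : X) (u : Lp ℝ 2 (volume : Measure X)) :
    trans v u = Lp.compMeasurePreserving (fun x : X => x + v) (mp_add v) u := rfl

theorem trans_cont (u : Lp ℝ 2 (volume : Measure X)) : Continuous (fun v : X => trans v u) := by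
  have h := Lp.compMeasurePreserving_continuous (X := X) (Y := X) volume volume ℝ
    (p := 2) (by norm_num)
  let F : C(X, C(X, X)) := ContinuousMap.curry ⟨fun p : X × X => p.2 + p.1, by fun_prop⟩
  have hF : ∀ v, MeasurePreserving (F v) volume volume := fun v => mp_add v
  have h2 : Continuous (fun v : X => (⟨F v, hF v⟩ :
      {f : C(X, X) // MeasurePreserving f volume volume})) :=
    F.continuous.subtype_mk hF
  exact h.comp (continuous_const.prodMk h2)

/-- The flow of translations along a linear map. -/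
noncomputable def flow (L : ℂ →L[ℝ] X) : Flow (Lp ℝ 2 (volume : Measure X)) where
  τ v := trans (L v)
  norm_τ v u := Lp.norm_compMeasurePreserving u (mp_add (L v))
  τ_add v w u := by
    rw [trans_apply, trans_apply, trans_apply, ← Lp.compMeasurePreserving_comp_apply]
    have h : (fun x : X => x + L (v + w)) = (fun x => x + L w) ∘ fun x => x + L v := by
      funext x
      simp [add_assoc]
    simp only [h]
  τ_zero u := by
    rw [trans_apply]
    have : (fun x : X => x + L 0) = id := by funext x; simp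
    simp only [this]
    exact Lp.compMeasurePreserving_id_apply u
  cont u := (trans_cont u).comp L.continuous

theorem inner_toLp {f g : X → ℝ} (hf : MemLp f 2 volume) (hg : MemLp g 2 volume) :
    ⟪hf.toLp f, hg.toLp g⟫ = ∫ x, f x * g x := by
  rw [L2.inner_def]
  apply integral_congr_ae
  filter_upwards [hf.coeFn_toLp, hg.coeFn_toLp] with x h1 h2
  rw [h1, h2]
  simp [mul_comm]

theorem norm_sq_toLp {f : X → ℝ} (hf : MemLp f 2 volume) :
    ‖hf.toLp f‖ ^ 2 = ∫ x, f x ^ 2 := by
  rw [← real_inner_self_eq_norm_sq, inner_toLp hf hf]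
  simp only [sq]

theorem cr_eq (L : ℂ →L[ℝ] X) {F' F : X → ℝ} (hF' : MemLp F' 2 volume) (hF : MemLp F 2 volume)
    (v : ℂ) : cr L F' F v = ⟪hF'.toLp F', (flow L).τ v (hF.toLp F)⟫ := by
  have h : (flow L).τ v (hF.toLp F) =
      (hF.comp_measurePreserving (mp_add (L v))).toLp _ := rfl
  rw [h, inner_toLp]
  rfl

theorem En_eq (L : ℂ →L[ℝ] X) {F : X → ℝ} (hF : MemLp F 2 volume) (t : ℝ) (ht : 0 < t) :
    En L F t = (flow L).e t (hF.toLp F) := by
  unfold En Flow.e Flow.P
  rw [(flow L).inner_av _ (gs_int t ht)]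
  simp only [cr_eq L hF hF]

theorem En_nonneg (L : ℂ →L[ℝ] X) (F : X → ℝ) (hF : MemLp F 2 volume) (t : ℝ) (ht : 0 < t) :
    0 ≤ En L F t := by
  rw [En_eq L hF t ht]
  exact (flow L).e_nonneg t ht _

theorem En_le (L : ℂ →L[ℝ] X) (F : X → ℝ) (hF : MemLp F 2 volume) (t : ℝ) (ht : 0 < t) :
    En L F t ≤ ∫ x, F x ^ 2 := by
  rw [En_eq L hF t ht, ← norm_sq_toLp hF]
  exact (flow L).e_le t ht _

theorem En_anti (L : ℂ →L[ℝ] X) (F : X → ℝ) (hF : MemLp F 2 volume) (s t : ℝ) (hs : 0 < s)
    (hst : s ≤ t) : En L F t ≤ En L F s := by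
  rw [En_eq L hF t (hs.trans_le hst), En_eq L hF s hs]
  exact (flow L).e_anti s t hs hst _

/-- `k` may be replaced by a Gaussian of large variance in a region of constant energy -/
theorem approx (L : ℂ →L[ℝ] X) (F' F : X → ℝ) (hF' : MemLp F' 2 volume) (hF : MemLp F 2 volume)
    (W : ℝ) (hW' : ∫ x, F' x ^ 2 ≤ W) (hW : ∫ x, F x ^ 2 ≤ W) (k : ℂ → ℝ) (hk : Integrable k)
    (R : ℝ) (hR : 0 ≤ R) (hkR : ∀ v, R < ‖v‖ → k v = 0) (s t η : ℝ) (hs : 0 < s) (hst : s ≤ t)
    (hη : 0 < η) :
    |(∫ v, k v * cr L F' F v) - (∫ v, k v) * ∫ v, gs t v * cr L F' F v| ≤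
      (Wq k s + 2 * R / Real.sqrt t * ∫ v, |k v|) * W +
        (∫ v, |k v|) * (η * W + (En L F (2 * s) - En L F (2 * t)) / η) := by
  have ht : 0 < t := hs.trans_le hst
  have h := (flow L).approx (hF'.toLp F') (hF.toLp F) W (by rwa [norm_sq_toLp])
    (by rwa [norm_sq_toLp]) k hk R hR hkR s t η hs hst hη
  rw [En_eq L hF _ (by linarith), En_eq L hF _ (by linarith)]
  unfold Flow.P at h
  rw [(flow L).inner_av k hk, (flow L).inner_av _ (gs_int t ht)] at h
  simp only [cr_eq L hF' hF]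
  exact h

/-- a kernel of mean zero is small on a function of nearly constant energy -/
theorem sq_small (L : ℂ →L[ℝ] X) (F : X → ℝ) (hF : MemLp F 2 volume)
    (W : ℝ) (hW : ∫ x, F x ^ 2 ≤ W) (k : ℂ → ℝ) (hk : Integrable k) (h0 : ∫ v, k v = 0)
    (R : ℝ) (hR : 0 ≤ R) (hkR : ∀ v, R < ‖v‖ → k v = 0) (s t : ℝ) (hs : 0 < s) (hst : s ≤ t) :
    0 ≤ (∫ v, ∫ w, k v * k w * cr L F F (w - v)) ∧
    (∫ v, ∫ w, k v * k w * cr L F F (w - v)) ≤
      2 * (Wq k s + 2 * R / Real.sqrt t * ∫ v, |k v|) ^ 2 * W +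
        2 * (∫ v, |k v|) ^ 2 * (En L F (2 * s) - En L F (2 * t)) := by
  have ht : 0 < t := hs.trans_le hst
  have h := (flow L).sq_small (hF.toLp F) W (by rwa [norm_sq_toLp]) k hk h0 R hR hkR s t hs hst
  have h2 := (flow L).norm_sq_av k hk (hF.toLp F)
  rw [En_eq L hF _ (by linarith), En_eq L hF _ (by linarith)]
  simp only [cr_eq L hF hF]
  rw [← h2]
  exact ⟨by positivity, h⟩

end Pool.Agent.H2.Kn
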