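import Pool.Agent.H16.Kn.Defs

/-!
# Averages of an isometric representation of the plane
-/

open MeasureTheory
open scoped RealInnerProductSpace

set_option linter.unusedSectionVars false

namespace Pool.Agent.H2.Kn

open Pool.Agent.H16.Kn

/-- A strongly continuous isometric representation of the plane on a real Hilbert space. -/
structure Flow (H : Type) [NormedAddCommGroup H] [InnerProductSpace ℝ H] where
  τ : ℂ → H →L[ℝ] H
  norm_τ : ∀ v u, ‖τ v u‖ = ‖u‖
  τ_add : ∀ v w u, τ (v + w) u = τ v (τ w u)
  τ_zero : ∀ u, τ 0 u = u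
  cont : ∀ u, Continuous fun v => τ v u

variable {H : Type} [NormedAddCommGroup H] [InnerProductSpace ℝ H] [CompleteSpace H]

namespace Flow

variable (T : Flow H)

/-- The average with weight `k`. -/
noncomputable def av (k : ℂ → ℝ) (u : H) : H := ∫ v, k v • T.τ v u

theorem inner_τ (v : ℂ) (u w : H) : ⟪T.τ v u, T.τ v w⟫ = ⟪u, w⟫ := by
  rw [real_inner_eq_norm_add_mul_self_sub_norm_mul_self_sub_norm_mul_self_div_two,
    real_inner_eq_norm_add_mul_self_sub_norm_mul_self_sub_norm_mul_self_div_two, ← map_add,
    T.norm_τ, T.norm_τ, T.norm_τ]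

theorem int (k : ℂ → ℝ) (hk : Integrable k) (u : H) : Integrable fun v => k v • T.τ v u := by
  refine (hk.norm.mul_const ‖u‖).mono'
    (hk.aestronglyMeasurable.smul (T.cont u).aestronglyMeasurable) (ae_of_all _ fun v => ?_)
  rw [norm_smul, T.norm_τ]

theorem norm_av (k : ℂ → ℝ) (hk : Integrable k) (u : H) : ‖T.av k u‖ ≤ (∫ v, |k v|) * ‖u‖ := by
  refine (norm_integral_le_integral_norm _).trans ?_
  rw [← integral_mul_const]
  refine le_of_eq (integral_congr_ae (ae_of_all _ fun v => ?_))
  simp only [norm_smul, T.norm_τ, Real.norm_eq_abs]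

theorem inner_av (k : ℂ → ℝ) (hk : Integrable k) (u' u : H) :
    ⟪u', T.av k u⟫ = ∫ v, k v * ⟪u', T.τ v u⟫ := by
  unfold av
  rw [← integral_inner (T.int k hk u)]
  refine integral_congr_ae (ae_of_all _ fun v => ?_)
  simp only [real_inner_smul_right]

theorem av_sub_right (k : ℂ → ℝ) (hk : Integrable k) (u w : H) :
    T.av k (u - w) = T.av k u - T.av k w := by
  unfold av
  rw [← integral_sub (T.int k hk u) (T.int k hk w)]
  refine integral_congr_ae (ae_of_all _ fun v => ?_)
  simp only [map_sub, smul_sub]

/-- Translation of an average. -/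
theorem τ_av (k : ℂ → ℝ) (hk : Integrable k) (u : H) (x : ℂ) :
    T.τ x (T.av k u) = T.av (fun v => k (v - x)) u := by
  unfold av
  rw [← (T.τ x).integral_comp_comm (T.int k hk u)]
  rw [← integral_sub_right_eq_self _ x]
  refine integral_congr_ae (ae_of_all _ fun v => ?_)
  simp only [map_smul]
  rw [← T.τ_add, add_sub_cancel]

theorem av_diff (k k' : ℂ → ℝ) (hk : Integrable k) (hk' : Integrable k') (u : H) :
    T.av k u - T.av k' u = T.av (fun v => k v - k' v) u := by
  unfold av
  rw [← integral_sub (T.int k hk u) (T.int k' hk' u)]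
  refine integral_congr_ae (ae_of_all _ fun v => ?_)
  simp only [sub_smul]

theorem int_prod (a b : ℂ → ℝ) (ha : Integrable a) (hb : Integrable b) (u : H) :
    Integrable (fun p : ℂ × ℂ => (a p.1 * b p.2) • T.τ (p.1 + p.2) u)
      ((volume : Measure ℂ).prod volume) := by
  refine ((ha.mul_prod hb).norm.mul_const ‖u‖).mono'
    ((ha.mul_prod hb).aestronglyMeasurable.smul
      ((T.cont u).comp continuous_add).aestronglyMeasurable) (ae_of_all _ fun v => ?_)
  rw [norm_smul, T.norm_τ]

theorem av_av (a b : ℂ → ℝ) (ha : Integrable a) (hb : Integrable b) (u : H) :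
    T.av a (T.av b u) = ∫ v, ∫ w, (a v * b w) • T.τ (v + w) u := by
  unfold av
  refine integral_congr_ae (ae_of_all _ fun v => ?_)
  simp only
  rw [← (T.τ v).integral_comp_comm (T.int b hb u), ← integral_smul]
  refine integral_congr_ae (ae_of_all _ fun w => ?_)
  simp only [map_smul, smul_smul]
  rw [T.τ_add]

theorem av_comm (a b : ℂ → ℝ) (ha : Integrable a) (hb : Integrable b) (u : H) :
    T.av a (T.av b u) = T.av b (T.av a u) := by
  rw [T.av_av a b ha hb, T.av_av b a hb ha, integral_integral_swap (T.int_prod a b ha hb u)]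
  refine integral_congr_ae (ae_of_all _ fun v => integral_congr_ae (ae_of_all _ fun w => ?_))
  simp only
  rw [mul_comm, add_comm]

theorem av_conv (a b c : ℂ → ℝ) (ha : Integrable a) (hb : Integrable b)
    (hc : ∀ x, ∫ y, a y * b (x - y) = c x) (u : H) :
    T.av a (T.av b u) = T.av c u := by
  rw [T.av_av a b ha hb]
  have h1 : ∀ v, ∫ w, (a v * b w) • T.τ (v + w) u = ∫ x, (a v * b (x - v)) • T.τ x u := by
    intro v
    rw [← integral_sub_right_eq_self _ v]
    refine integral_congr_ae (ae_of_all _ fun w => ?_)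
    simp only [add_sub_cancel]
  simp only [h1]
  have hint : Integrable (fun p : ℂ × ℂ => (a p.1 * b (p.2 - p.1)) • T.τ p.2 u)
      ((volume : Measure ℂ).prod volume) := by
    have h2 : MeasurePreserving (fun p : ℂ × ℂ => (p.1, -p.1 + p.2))
        ((volume : Measure ℂ).prod volume) ((volume : Measure ℂ).prod volume) :=
      measurePreserving_prod_neg_add (volume : Measure ℂ) (volume : Measure ℂ)
    refine (h2.integrable_comp_of_integrable (T.int_prod a b ha hb u)).congr
      (ae_of_all _ fun p => ?_)
    simp only [Function.comp_apply, add_neg_cancel_left]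
    rw [neg_add_eq_sub]
  rw [integral_integral_swap hint]
  unfold av
  refine integral_congr_ae (ae_of_all _ fun x => ?_)
  simp only
  rw [integral_smul_const, hc]

end Flow

end Pool.Agent.H2.Kn
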