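import Pool.Agent.H2.Kn.Rep
import Pool.Agent.H16.Kn.Gauss
import Pool.Agent.H16.Kn.Om

/-!
# Gaussian averages of an isometric representation of the plane
-/

open MeasureTheory
open scoped RealInnerProductSpace

set_option linter.unusedSectionVars false

namespace Pool.Agent.H2.Kn

open Pool.Agent.H16.Kn

variable {H : Type} [NormedAddCommGroup H] [InnerProductSpace ℝ H] [CompleteSpace H]

namespace Flow

variable (T : Flow H)

/-- The Gaussian average. -/
noncomputable def P (t : ℝ) (u : H) : H := T.av (gs t) u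

/-- The energy. -/
noncomputable def e (t : ℝ) (u : H) : ℝ := ⟪u, T.P t u⟫

theorem P_add (s t : ℝ) (hs : 0 < s) (ht : 0 < t) (u : H) : T.P s (T.P t u) = T.P (s + t) u :=
  T.av_conv _ _ _ (gs_int s hs) (gs_int t ht) (gs_conv s t hs ht) u

theorem gs_abs_one (t : ℝ) (ht : 0 < t) : ∫ v, |gs t v| = 1 := by
  rw [← gs_one t ht]
  exact integral_congr_ae (ae_of_all _ fun v => abs_of_nonneg (gs_nonneg t ht v))

theorem norm_P (t : ℝ) (ht : 0 < t) (u : H) : ‖T.P t u‖ ≤ ‖u‖ := by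
  have := T.norm_av (gs t) (gs_int t ht) u
  rwa [gs_abs_one t ht, one_mul] at this

/-- Gaussian averages are symmetric. -/
theorem P_symm (t : ℝ) (ht : 0 < t) (u w : H) : ⟪T.P t u, w⟫ = ⟪u, T.P t w⟫ := by
  rw [real_inner_comm]
  unfold P
  rw [T.inner_av _ (gs_int t ht), T.inner_av _ (gs_int t ht), ← integral_neg_eq_self]
  refine integral_congr_ae (ae_of_all _ fun v => ?_)
  simp only
  rw [gs_neg]
  congr 1
  rw [← T.inner_τ v, ← T.τ_add, add_neg_cancel, T.τ_zero, real_inner_comm]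

theorem inner_P_P (s t : ℝ) (hs : 0 < s) (ht : 0 < t) (u : H) :
    ⟪T.P s u, T.P t u⟫ = T.e (s + t) u := by
  rw [T.P_symm s hs, T.P_add s t hs ht, e]

theorem e_two (t : ℝ) (ht : 0 < t) (u : H) : T.e (2 * t) u = ‖T.P t u‖ ^ 2 := by
  rw [two_mul, ← T.inner_P_P t t ht ht, real_inner_self_eq_norm_sq]

theorem e_half (t : ℝ) (ht : 0 < t) (u : H) : T.e t u = ‖T.P (t / 2) u‖ ^ 2 := by
  have := T.e_two (t / 2) (by linarith) u
  rwa [mul_div_cancel₀ _ (two_ne_zero' ℝ)] at this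

theorem e_nonneg (t : ℝ) (ht : 0 < t) (u : H) : 0 ≤ T.e t u := by
  rw [T.e_half t ht]
  positivity

theorem e_le (t : ℝ) (ht : 0 < t) (u : H) : T.e t u ≤ ‖u‖ ^ 2 := by
  rw [T.e_half t ht]
  have := T.norm_P (t / 2) (by linarith) u
  gcongr

theorem e_anti (s t : ℝ) (hs : 0 < s) (hst : s ≤ t) (u : H) : T.e t u ≤ T.e s u := by
  rcases hst.eq_or_lt with rfl | h
  · exact le_rfl
  rw [T.e_half t (by linarith), T.e_half s hs]
  have h1 : T.P (t / 2) u = T.P (t / 2 - s / 2) (T.P (s / 2) u) := by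
    rw [T.P_add _ _ (by linarith) (by linarith), sub_add_cancel]
  rw [h1]
  have := T.norm_P (t / 2 - s / 2) (by linarith) (T.P (s / 2) u)
  gcongr

/-- The difference of two Gaussian averages. -/
theorem norm_P_sub (s t : ℝ) (hs : 0 < s) (hst : s ≤ t) (u : H) :
    ‖T.P s u - T.P t u‖ ^ 2 ≤ T.e (2 * s) u - T.e (2 * t) u := by
  have ht : 0 < t := lt_of_lt_of_le hs hst
  rw [norm_sub_sq_real, T.inner_P_P s t hs ht, ← T.e_two s hs, ← T.e_two t ht]
  have := T.e_anti (s + t) (2 * t) (by linarith) (by linarith) u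
  linarith

/-- `k` against its Gaussian smoothing. -/
theorem step_s (k : ℂ → ℝ) (hk : Integrable k) (s : ℝ) (hs : 0 < s) (u : H) :
    ‖T.av k u - T.P s (T.av k u)‖ ≤ Wq k s * ‖u‖ := by
  have h1 : T.av k u = ∫ y, gs s y • T.av k u := by
    rw [integral_smul_const, gs_one s hs, one_smul]
  have hint1 : Integrable fun y => gs s y • T.av k u := (gs_int s hs).smul_const _
  have hint2 : Integrable fun y => gs s y • T.τ y (T.av k u) := T.int _ (gs_int s hs) _
  have h2 : T.av k u - T.P s (T.av k u) =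
      ∫ y, gs s y • (T.av k u - T.τ y (T.av k u)) := by
    have e : ∀ y, gs s y • (T.av k u - T.τ y (T.av k u)) =
        gs s y • T.av k u - gs s y • T.τ y (T.av k u) := fun y => smul_sub _ _ _
    simp only [e]
    rw [integral_sub hint1 hint2, ← h1]
    rfl
  rw [h2]
  refine (norm_integral_le_integral_norm _).trans ?_
  have h3 : ∀ y, ‖gs s y • (T.av k u - T.τ y (T.av k u))‖ ≤ gs s y * (om k (-y) * ‖u‖) := by
    intro y
    rw [norm_smul, Real.norm_eq_abs, abs_of_nonneg (gs_nonneg s hs y)]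
    refine mul_le_mul_of_nonneg_left ?_ (gs_nonneg s hs y)
    rw [T.τ_av k hk, T.av_diff _ _ hk (hk.comp_sub_right y)]
    refine (T.norm_av _ (hk.sub (hk.comp_sub_right y)) u).trans (le_of_eq ?_)
    congr 1
    unfold om
    refine integral_congr_ae (ae_of_all _ fun v => ?_)
    simp only [← sub_eq_add_neg]
    exact abs_sub_comm _ _
  have hom : Integrable fun y => gs s y * (om k (-y) * ‖u‖) := by
    have hc : Continuous fun y => om k (-y) * ‖u‖ := ((om_cont k hk).comp continuous_neg).mul_const _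
    refine (gs_int s hs).mul_bdd (c := 2 * (∫ x, |k x|) * ‖u‖) hc.aestronglyMeasurable
      (ae_of_all _ fun y => ?_)
    rw [Real.norm_eq_abs, abs_of_nonneg (mul_nonneg (om_nonneg k _) (norm_nonneg _))]
    exact mul_le_mul_of_nonneg_right (om_le k hk _) (norm_nonneg _)
  refine (integral_mono_of_nonneg (ae_of_all _ fun y => norm_nonneg _) hom
    (ae_of_all _ h3)).trans (le_of_eq ?_)
  unfold Wq
  rw [← integral_mul_const, ← integral_neg_eq_self]
  refine integral_congr_ae (ae_of_all _ fun y => ?_)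
  simp only [neg_neg]
  rw [gs_neg, mul_assoc]

/-- Translations of a Gaussian average. -/
theorem step_t (k : ℂ → ℝ) (hk : Integrable k) (R : ℝ) (hR : 0 ≤ R)
    (hkR : ∀ v, R < ‖v‖ → k v = 0) (t : ℝ) (ht : 0 < t) (u : H) :
    ‖T.av k (T.P t u) - (∫ v, k v) • T.P t u‖ ≤ 2 * R / Real.sqrt t * (∫ v, |k v|) * ‖u‖ := by
  have hint1 : Integrable fun v => k v • T.τ v (T.P t u) := T.int _ hk _
  have hint2 : Integrable fun v => k v • T.P t u := hk.smul_const _
  have h1 : T.av k (T.P t u) - (∫ v, k v) • T.P t u = ∫ v, k v • (T.τ v (T.P t u) - T.P t u) := by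
    unfold av
    rw [← integral_smul_const, ← integral_sub hint1 hint2]
    refine integral_congr_ae (ae_of_all _ fun y => ?_)
    simp only [smul_sub]
  rw [h1]
  refine (norm_integral_le_integral_norm _).trans ?_
  have h2 : ∀ v, ‖k v • (T.τ v (T.P t u) - T.P t u)‖ ≤
      |k v| * (2 * R / Real.sqrt t * ‖u‖) := by
    intro v
    rw [norm_smul, Real.norm_eq_abs]
    rcases lt_or_ge R ‖v‖ with hv | hv
    · rw [hkR v hv]
      simp
    refine mul_le_mul_of_nonneg_left ?_ (abs_nonneg _)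
    unfold P
    rw [T.τ_av _ (gs_int t ht), T.av_diff _ _ ((gs_int t ht).comp_sub_right v) (gs_int t ht)]
    refine (T.norm_av _ (((gs_int t ht).comp_sub_right v).sub (gs_int t ht)) u).trans ?_
    refine mul_le_mul_of_nonneg_right ?_ (norm_nonneg _)
    have := gs_shift t ht (-v)
    simp only [← sub_eq_add_neg, norm_neg] at this
    refine this.trans ?_
    gcongr
  refine (integral_mono_of_nonneg (ae_of_all _ fun y => norm_nonneg _)
    (hk.abs.mul_const _) (ae_of_all _ h2)).trans (le_of_eq ?_)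
  rw [integral_mul_const]
  ring

theorem step_st (k : ℂ → ℝ) (hk : Integrable k) (s t : ℝ) (hs : 0 < s) (hst : s ≤ t) (u : H) :
    ‖T.P s (T.av k u) - T.P t (T.av k u)‖ ≤
      (∫ v, |k v|) * Real.sqrt (T.e (2 * s) u - T.e (2 * t) u) := by
  have ht : 0 < t := lt_of_lt_of_le hs hst
  unfold P
  rw [T.av_comm _ _ (gs_int s hs) hk, T.av_comm _ _ (gs_int t ht) hk, ← T.av_sub_right k hk]
  refine (T.norm_av k hk _).trans (mul_le_mul_of_nonneg_left ?_ (by positivity))
  exact Real.le_sqrt_of_sq_le (T.norm_P_sub s t hs hst u)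

theorem approx (u' u : H) (W : ℝ) (hW' : ‖u'‖ ^ 2 ≤ W) (hW : ‖u‖ ^ 2 ≤ W) (k : ℂ → ℝ)
    (hk : Integrable k) (R : ℝ) (hR : 0 ≤ R) (hkR : ∀ v, R < ‖v‖ → k v = 0) (s t η : ℝ)
    (hs : 0 < s) (hst : s ≤ t) (hη : 0 < η) :
    |⟪u', T.av k u⟫ - (∫ v, k v) * ⟪u', T.P t u⟫| ≤
      (Wq k s + 2 * R / Real.sqrt t * ∫ v, |k v|) * W +
        (∫ v, |k v|) * (η * W + (T.e (2 * s) u - T.e (2 * t) u) / η) := by
  have ht : 0 < t := lt_of_lt_of_le hs hst
  have hW0 : 0 ≤ W := (sq_nonneg _).trans hW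
  have hWq : 0 ≤ Wq k s := Wq_nonneg k s hs
  have hk0 : 0 ≤ ∫ v, |k v| := integral_nonneg fun v => abs_nonneg _
  have hw' : ‖u'‖ ≤ Real.sqrt W := Real.le_sqrt_of_sq_le hW'
  have hw : ‖u‖ ≤ Real.sqrt W := Real.le_sqrt_of_sq_le hW
  have hD : 0 ≤ T.e (2 * s) u - T.e (2 * t) u := (sq_nonneg _).trans (T.norm_P_sub s t hs hst u)
  set D := T.e (2 * s) u - T.e (2 * t) u
  have h1 : ⟪u', T.av k u⟫ - (∫ v, k v) * ⟪u', T.P t u⟫ =
      ⟪u', (T.av k u - T.P s (T.av k u)) + (T.P s (T.av k u) - T.P t (T.av k u)) +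
        (T.av k (T.P t u) - (∫ v, k v) • T.P t u)⟫ := by
    have : T.P t (T.av k u) = T.av k (T.P t u) := by
      unfold P
      rw [T.av_comm _ _ (gs_int t ht) hk]
    rw [this, sub_add_sub_cancel, sub_add_sub_cancel, inner_sub_right, real_inner_smul_right]
  rw [h1]
  refine (abs_real_inner_le_norm _ _).trans ?_
  have h2 := T.step_s k hk s hs u
  have h3 := T.step_st k hk s t hs hst u
  have h4 := T.step_t k hk R hR hkR t ht u
  have h5 := (norm_add₃_le (a := T.av k u - T.P s (T.av k u))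
    (b := T.P s (T.av k u) - T.P t (T.av k u))
    (c := T.av k (T.P t u) - (∫ v, k v) • T.P t u))
  have hA : 0 ≤ 2 * R / Real.sqrt t * ∫ v, |k v| := by positivity
  have h6 : ‖T.av k u - T.P s (T.av k u) + (T.P s (T.av k u) - T.P t (T.av k u)) +
      (T.av k (T.P t u) - (∫ v, k v) • T.P t u)‖ ≤
      (Wq k s + 2 * R / Real.sqrt t * ∫ v, |k v|) * Real.sqrt W +
        (∫ v, |k v|) * Real.sqrt D := by
    have e1 := mul_le_mul_of_nonneg_left hw hWq
    have e2 := mul_le_mul_of_nonneg_left hw hA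
    linarith
  refine (mul_le_mul hw' h6 (norm_nonneg _) (Real.sqrt_nonneg _)).trans ?_
  have h7 : Real.sqrt W * Real.sqrt W = W := Real.mul_self_sqrt hW0
  have h8 : Real.sqrt W * Real.sqrt D ≤ η * W + D / η := by
    have a1 : 0 ≤ (Real.sqrt η * Real.sqrt W - Real.sqrt D / Real.sqrt η) ^ 2 := sq_nonneg _
    have a2 : Real.sqrt η * Real.sqrt η = η := Real.mul_self_sqrt hη.le
    have a3 : Real.sqrt D * Real.sqrt D = D := Real.mul_self_sqrt hD
    have a4 : 0 < Real.sqrt η := Real.sqrt_pos.2 hη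
    have a5 : (Real.sqrt η * Real.sqrt W - Real.sqrt D / Real.sqrt η) ^ 2 =
        (Real.sqrt η * Real.sqrt η) * (Real.sqrt W * Real.sqrt W) -
          2 * (Real.sqrt W * Real.sqrt D) +
          (Real.sqrt D * Real.sqrt D) / (Real.sqrt η * Real.sqrt η) := by
      field_simp
      ring
    rw [a5, a2, a3, h7] at a1
    have a6 : 0 ≤ Real.sqrt W * Real.sqrt D := by positivity
    linarith
  calc Real.sqrt W * ((Wq k s + 2 * R / Real.sqrt t * ∫ v, |k v|) * Real.sqrt W +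
        (∫ v, |k v|) * Real.sqrt D)
      = (Wq k s + 2 * R / Real.sqrt t * ∫ v, |k v|) * (Real.sqrt W * Real.sqrt W) +
        (∫ v, |k v|) * (Real.sqrt W * Real.sqrt D) := by ring
    _ ≤ _ := by
        rw [h7]
        exact add_le_add le_rfl (mul_le_mul_of_nonneg_left h8 hk0)

theorem sq_small (u : H) (W : ℝ) (hW : ‖u‖ ^ 2 ≤ W) (k : ℂ → ℝ) (hk : Integrable k)
    (h0 : ∫ v, k v = 0) (R : ℝ) (hR : 0 ≤ R) (hkR : ∀ v, R < ‖v‖ → k v = 0) (s t : ℝ)
    (hs : 0 < s) (hst : s ≤ t) :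
    ‖T.av k u‖ ^ 2 ≤ 2 * (Wq k s + 2 * R / Real.sqrt t * ∫ v, |k v|) ^ 2 * W +
        2 * (∫ v, |k v|) ^ 2 * (T.e (2 * s) u - T.e (2 * t) u) := by
  have ht : 0 < t := lt_of_lt_of_le hs hst
  have hWq : 0 ≤ Wq k s := Wq_nonneg k s hs
  have hk0 : 0 ≤ ∫ v, |k v| := integral_nonneg fun v => abs_nonneg _
  have hD : 0 ≤ T.e (2 * s) u - T.e (2 * t) u := (sq_nonneg _).trans (T.norm_P_sub s t hs hst u)
  have h2 := T.step_s k hk s hs u
  have h3 := T.step_st k hk s t hs hst u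
  have h4 := T.step_t k hk R hR hkR t ht u
  rw [h0, zero_smul, sub_zero] at h4
  have h1 : T.av k u = (T.av k u - T.P s (T.av k u)) + (T.P s (T.av k u) - T.P t (T.av k u)) +
        T.av k (T.P t u) := by
    have : T.P t (T.av k u) = T.av k (T.P t u) := by
      unfold P
      rw [T.av_comm _ _ (gs_int t ht) hk]
    rw [this, sub_add_sub_cancel, sub_add_cancel]
  have h5 := (norm_add₃_le (a := T.av k u - T.P s (T.av k u))
    (b := T.P s (T.av k u) - T.P t (T.av k u)) (c := T.av k (T.P t u)))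
  rw [← h1] at h5
  have hA : 0 ≤ 2 * R / Real.sqrt t * ∫ v, |k v| := by positivity
  set D := T.e (2 * s) u - T.e (2 * t) u
  set A := Wq k s + 2 * R / Real.sqrt t * ∫ v, |k v| with hAdef
  have h6 : ‖T.av k u‖ ≤ A * ‖u‖ + (∫ v, |k v|) * Real.sqrt D := by
    rw [hAdef]
    linarith
  have h7 : ‖T.av k u‖ ^ 2 ≤ (A * ‖u‖ + (∫ v, |k v|) * Real.sqrt D) ^ 2 := by gcongr
  have a3 : Real.sqrt D ^ 2 = D := Real.sq_sqrt hD
  have h8 : (A * ‖u‖ + (∫ v, |k v|) * Real.sqrt D) ^ 2 ≤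
      2 * A ^ 2 * ‖u‖ ^ 2 + 2 * (∫ v, |k v|) ^ 2 * D := by
    have := sq_nonneg (A * ‖u‖ - (∫ v, |k v|) * Real.sqrt D)
    have e1 : 2 * (∫ v, |k v|) ^ 2 * D = 2 * ((∫ v, |k v|) * Real.sqrt D) ^ 2 := by
      rw [mul_pow, a3]
      ring
    rw [e1]
    nlinarith
  have h9 : 2 * A ^ 2 * ‖u‖ ^ 2 ≤ 2 * A ^ 2 * W := mul_le_mul_of_nonneg_left hW (by positivity)
  linarith

/-- The square of an average as a double integral. -/
theorem norm_sq_av (k : ℂ → ℝ) (hk : Integrable k) (u : H) :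
    ‖T.av k u‖ ^ 2 = ∫ v, ∫ w, k v * k w * ⟪u, T.τ (w - v) u⟫ := by
  rw [← real_inner_self_eq_norm_sq, real_inner_comm]
  rw [T.inner_av k hk]
  refine integral_congr_ae (ae_of_all _ fun v => ?_)
  simp only
  rw [real_inner_comm, T.inner_av k hk, ← integral_const_mul]
  refine integral_congr_ae (ae_of_all _ fun w => ?_)
  simp only
  rw [mul_assoc]
  congr 2
  rw [← T.inner_τ v u, ← T.τ_add, add_sub_cancel]

end Flow

end Pool.Agent.H2.Kn
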